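import Pool.Graph.R_seed8.Y249.AC.Stm
import Pool.Graph.R_seed8.W193.AC.INT
import Pool.Graph.R_pool_sql_team_seeded_63374d34.N249.KE.F

/-!
# The integral bound for boxes at one scale, from the bound for tubes at one scale
-/

set_option autoImplicit false

open MeasureTheory Set Filter Topology ENNReal NNReal Metric

namespace Pool.Agent.H222.KX

open Pool.Agent.H810R3.Tub Pool.Agent.W772 Pool.Agent.W193.AC

/-- The moment bound for tubes at one scale. -/
def TubeAt (d : ℕ) (c δ C : ℝ) : Prop := ∀ (ι : Type) [Fintype ι]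
    (a e : ι → EuclideanSpace ℝ (Fin (d + 1))), (∀ i, ‖e i‖ = 1) →
    (∀ i j, i ≠ j → δ ≤ ‖e i - e j‖) →
    ∫⁻ x, (∑ i, (Pool.Agent.W46.KK.tube δ (a i) (e i)).indicator (fun _ => (1 : ℝ≥0∞)) x) ^
        (1 + c / (d : ℝ)) ≤
      ENNReal.ofReal (C * δ ^ (d : ℝ) * (Fintype.card ι : ℝ) ^ (1 + c / (d : ℝ) - 1 / (d : ℝ)))

theorem INT_at {d : ℕ} {c : ℝ} (hd : 1 ≤ d) (hc : 0 < c) {σ : ℝ} (hσ : 0 < σ) (hσ1 : σ ≤ 1) :
    ∃ E : ℝ, 0 < E ∧ ∀ (N : ℝ), 1 ≤ N → ∀ C : ℝ, 0 ≤ C → TubeAt d c (σ / 4 / N) C →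
      ∀ (ι : Type) [Fintype ι] (ω : ι → Vec d) (f : ι → Fin d → Space d)
      (a : ι → Space d), (∀ i, ‖ω i‖ ≤ 1) → (∀ i j, i ≠ j → σ / N ≤ ‖ω i - ω j‖) →
      (∀ i, Orthonormal ℝ (Fin.cons (nor (ω i)) (f i) : Fin (d + 1) → Space d)) →
      ∫⁻ y, Fb N ω f a y ^ (1 + c / (d : ℝ)) ≤
        ENNReal.ofReal (E * C * (Fintype.card ι : ℝ) ^ (1 + (c - 1) / (d : ℝ)) * N ^ (d + 2)) := by
  have hd0 : (0 : ℝ) < d := by exact_mod_cast (by omega : 0 < d)
  set q : ℝ := 1 + c / (d : ℝ) with hq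
  have hq1 : 1 ≤ q := by
    have : 0 < c / (d : ℝ) := by positivity
    rw [hq]; linarith
  have hqd : q - 1 / (d : ℝ) = 1 + (c - 1) / (d : ℝ) := by
    rw [hq]; field_simp; ring
  set m : ℕ := ⌈4 * (d : ℝ) / σ⌉₊ with hm
  have hm1 : 1 ≤ m := Nat.one_le_ceil_iff.2 (by positivity)
  have hm0 : (0 : ℝ) < m := by exact_mod_cast hm1
  have hmle : 4 * (d : ℝ) / σ ≤ m := Nat.le_ceil _
  set K : ℝ := ((Fintype.card (Fin d → Fin (m + 1)) : ℕ) : ℝ) with hK
  have hK0 : 0 < K := by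
    rw [hK]
    exact_mod_cast Fintype.card_pos
  refine ⟨K ^ (q - 1) * (K * (σ / 4) ^ d), by positivity, ?_⟩
  intro N hN C hC hT ι _ ω f a hω hsep hf
  have hN0 : 0 < N := by linarith
  set δ : ℝ := σ / 4 / N with hδ
  have hδ0 : 0 < δ := by positivity
  have hmd : (d : ℝ) * (N / m) ≤ δ * N ^ 2 := by
    have e1 : δ * N ^ 2 = σ / 4 * N := by
      rw [hδ]; field_simp
    have e2 : (d : ℝ) * (N / m) = (d : ℝ) / m * N := by ring
    rw [e1, e2]
    apply mul_le_mul_of_nonneg_right _ hN0.le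
    rw [div_le_iff₀ hm0]
    rw [div_le_iff₀ hσ] at hmle
    linarith
  set Fk : (Fin d → Fin (m + 1)) → Space d → ℝ≥0∞ := fun k y =>
    ∑ i, (cyl (N ^ 2) δ (a i + off N m (f i) k) (nor (ω i))).indicator (fun _ => (1 : ℝ≥0∞)) y
    with hFk
  have h1 : ∀ y, Fb N ω f a y ≤ ∑ k, Fk k y := by
    intro y
    simp only [hFk]
    rw [Finset.sum_comm]
    unfold Fb
    refine Finset.sum_le_sum fun i _ => ?_
    by_cases hy : y ∈ box N (nor (ω i)) (f i) (a i)
    · obtain ⟨k, hk⟩ := cover hN hm1 hmd (hf i) hy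
      rw [indicator_of_mem hy]
      calc (1 : ℝ≥0∞) = (cyl (N ^ 2) δ (a i + off N m (f i) k) (nor (ω i))).indicator
            (fun _ => (1 : ℝ≥0∞)) y := by rw [indicator_of_mem hk]
        _ ≤ _ := Finset.single_le_sum (f := fun k => (cyl (N ^ 2) δ (a i + off N m (f i) k)
            (nor (ω i))).indicator (fun _ => (1 : ℝ≥0∞)) y) (fun _ _ => zero_le)
            (Finset.mem_univ k)
    · rw [indicator_of_notMem hy]
      exact zero_le
  set M : ℝ := (Fintype.card ι : ℝ) with hM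
  set B : ℝ≥0∞ := ENNReal.ofReal (C * δ ^ (d : ℝ) * M ^ (q - 1 / (d : ℝ))) with hB
  have h2 : ∀ k, ∫⁻ y, Fk k y ^ q ≤ ENNReal.ofReal ((N ^ 2) ^ (d + 1)) * B := by
    intro k
    refine cyl_int (by positivity) _ _ ?_
    refine hT ι _ _ ?_ ?_
    · intro i
      rw [LinearIsometryEquiv.norm_map]
      exact norm_e (hf i)
    · intro i j hij
      rw [← map_sub, LinearIsometryEquiv.norm_map]
      have h3 := nor_sep (ω i) (ω j) (hω i) (hω j)
      have h4 := hsep i j hij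
      have h5 : δ = σ / N / 4 := by rw [hδ]; ring
      rw [h5]
      linarith
  have hFkm : ∀ k, Measurable (fun y => Fk k y ^ q) := by
    intro k
    refine Measurable.pow_const ?_ q
    apply Finset.measurable_fun_sum
    intro i _
    refine measurable_const.indicator ?_
    have g1 : Continuous (fun y : Space d =>
      |inner ℝ (y - (a i + off N m (f i) k)) (nor (ω i))|) := by fun_prop
    have g2 : Continuous (fun y : Space d => ‖(y - (a i + off N m (f i) k)) -
      (inner ℝ (y - (a i + off N m (f i) k)) (nor (ω i)) : ℝ) • nor (ω i)‖) := by fun_prop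
    exact ((isClosed_le g1 continuous_const).inter (isClosed_le g2 continuous_const)).measurableSet
  calc ∫⁻ y, Fb N ω f a y ^ q
      ≤ ∫⁻ y, ENNReal.ofReal (K ^ (q - 1)) * ∑ k, Fk k y ^ q := by
        refine lintegral_mono fun y => ?_
        calc Fb N ω f a y ^ q ≤ (∑ k, Fk k y) ^ q :=
              ENNReal.rpow_le_rpow (h1 y) (by linarith)
          _ ≤ _ := by
              have h6 := ENNReal.rpow_sum_le_const_mul_sum_rpow (s := Finset.univ)
                (f := fun k => Fk k y) hq1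
              refine h6.trans (le_of_eq ?_)
              congr 1
              rw [Finset.card_univ, ← ENNReal.ofReal_natCast,
                ENNReal.ofReal_rpow_of_pos hK0]
    _ = ENNReal.ofReal (K ^ (q - 1)) * ∑ k, ∫⁻ y, Fk k y ^ q := by
        rw [lintegral_const_mul _ (Finset.measurable_fun_sum _ fun k _ => hFkm k),
          lintegral_finsetSum _ fun k _ => hFkm k]
    _ ≤ ENNReal.ofReal (K ^ (q - 1)) * ∑ _k : Fin d → Fin (m + 1),
          (ENNReal.ofReal ((N ^ 2) ^ (d + 1)) * B) := by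
        gcongr with k _
        exact h2 k
    _ = _ := by
        rw [Finset.sum_const, Finset.card_univ, nsmul_eq_mul, ← ENNReal.ofReal_natCast, ← hK, hB,
          ← ENNReal.ofReal_mul (by positivity), ← ENNReal.ofReal_mul (by positivity),
          ← ENNReal.ofReal_mul (by positivity)]
        congr 1
        rw [hqd, Real.rpow_natCast]
        have e1 : δ ^ d * (N ^ 2) ^ (d + 1) = (σ / 4) ^ d * N ^ (d + 2) := by
          rw [hδ, div_pow (σ / 4) N d]
          field_simp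
          ring
        calc K ^ (q - 1) * (K * ((N ^ 2) ^ (d + 1) * (C * δ ^ d * M ^ (1 + (c - 1) / (d : ℝ)))))
            = K ^ (q - 1) * (K * (C * M ^ (1 + (c - 1) / (d : ℝ)))) *
                (δ ^ d * (N ^ 2) ^ (d + 1)) := by ring
          _ = _ := by rw [e1]; ring

/-- A fixed loss at the critical exponent gives all exponents with a fixed loss. -/
theorem all_exponents {d : ℕ} (hd : 1 ≤ d) {σ κ s B : ℝ} (hσ : 0 < σ) (hσ1 : σ ≤ 1) (hκ : 0 < κ)
    (hs : 0 ≤ s) (hB : 0 ≤ B)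
    (h : ∀ δ : ℝ, 0 < δ → δ < 1 → TubeAt d 1 δ (B * δ ^ (-((1 + 1 / (d : ℝ)) * s)))) :
    ∃ C : ℝ, ∀ N : ℝ, 1 ≤ N → ∀ (ι : Type) [Fintype ι] (ω : ι → Vec d)
      (f : ι → Fin d → Space d), Pool.Agent.N249.KE.Cp σ κ N ω f → ∀ (a : ι → Space d) (p : ℝ≥0∞),
      1 ≤ p → Pool.Agent.N249.KE.Inq (C * N ^ s) N p ω f a := by
  have hd0 : (0 : ℝ) < d := by exact_mod_cast (by omega : 0 < d)
  set q : ℝ := 1 + 1 / (d : ℝ) with hq
  have hq0 : 0 < q := by positivity
  obtain ⟨E, hE, hI⟩ := INT_at (d := d) (c := 1) hd one_pos hσ hσ1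
  set e : ℝ := E * (B * (σ / 4) ^ (-(q * s))) * (4 / σ) ^ d + 1 with he
  have he0 : 0 < e := by positivity
  obtain ⟨D, hD, hcmp⟩ := compare_tri d hd κ e hκ he0
  refine ⟨D, fun N hN ι _ ω f hcp a p hp => ?_⟩
  have hne := Pool.Agent.N249.KE.nonempty_of_cp hκ hN hcp
  obtain ⟨hω, hsep, hcard, hf⟩ := hcp
  have hN0 : 0 < N := by linarith
  have hY : 1 ≤ N ^ (q * s) := Real.one_le_rpow hN (by positivity)
  have hM := Pool.Agent.N249.KE.card_caps hσ hσ1 hN ω hω hsep
  have hδ0 : 0 < σ / 4 / N := by positivity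
  have hδ1 : σ / 4 / N < 1 := by
    rw [div_lt_one hN0]
    linarith
  have h0 := hI N hN _ (by positivity) (h _ hδ0 hδ1) ι ω f a hω hsep hf
  have h1 : ∫⁻ y, Fb N ω f a y ^ (1 + 1 / (d : ℝ)) ≤
      ENNReal.ofReal (e * N ^ (q * s) * N ^ (2 * (d + 1))) := by
    refine h0.trans (ENNReal.ofReal_le_ofReal ?_)
    have e1 : (Fintype.card ι : ℝ) ^ (1 + ((1 : ℝ) - 1) / (d : ℝ)) = Fintype.card ι := by
      rw [sub_self, zero_div, add_zero, Real.rpow_one]
    have e2 : (σ / 4 / N) ^ (-(q * s)) = (σ / 4) ^ (-(q * s)) * N ^ (q * s) := by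
      rw [Real.div_rpow (by positivity) hN0.le, Real.rpow_neg hN0.le, div_inv_eq_mul]
    rw [e1, e2]
    calc E * (B * ((σ / 4) ^ (-(q * s)) * N ^ (q * s))) * (Fintype.card ι : ℝ) * N ^ (d + 2)
        ≤ E * (B * ((σ / 4) ^ (-(q * s)) * N ^ (q * s))) * (4 / σ * N) ^ d * N ^ (d + 2) := by
          gcongr
      _ = (E * (B * (σ / 4) ^ (-(q * s))) * (4 / σ) ^ d) * N ^ (q * s) * N ^ (2 * (d + 1)) := by
          rw [mul_pow]; ring
      _ ≤ _ := by
          gcongr
          rw [he]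
          linarith
  refine (hcmp hN hY ω f hf a hcard h1 p hp).trans ?_
  show _ ≤ ENNReal.ofReal (D * N ^ s) * eLpNorm (Pool.Agent.N249.KE.bsum N ω f 0) p volume
  refine mul_le_mul' (ENNReal.ofReal_le_ofReal ?_) le_rfl
  apply mul_le_mul_of_nonneg_left _ (by linarith)
  rw [← Real.rpow_mul hN0.le]
  apply Real.rpow_le_rpow_of_exponent_le hN
  have hth : q * th d p ≤ 1 := by
    rcases eq_or_ne p ∞ with ht | ht
    · have : th d p ≤ 0 := by
        unfold th
        refine (min_le_right _ _).trans ?_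
        rw [ht]; simp
      nlinarith
    · have h2 : 1 ≤ p.toReal := by
        rw [← ENNReal.toReal_one]
        exact ENNReal.toReal_mono ht hp
      unfold th
      set u : ℝ := 1 / p.toReal with hu
      have hqd : q * d = d + 1 := by rw [hq]; field_simp
      have m1 := min_le_left ((d : ℝ) * (1 - u)) u
      have m2 := min_le_right ((d : ℝ) * (1 - u)) u
      set w := min ((d : ℝ) * (1 - u)) u with hw
      have h3 : w * (d + 1) ≤ d := by nlinarith
      have h4 : q * w * d ≤ 1 * d := by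
        calc q * w * d = w * (q * d) := by ring
          _ = w * (d + 1) := by rw [hqd]
          _ ≤ 1 * d := by linarith
      exact le_of_mul_le_mul_right h4 hd0
  calc q * s * th d p = (q * th d p) * s := by ring
    _ ≤ 1 * s := by gcongr
    _ = s := one_mul s

end Pool.Agent.H222.KX
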